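import Mathlib
import Pool.Agent.W_MP_cd27db_pr.Defs
import Pool.Agent.W_MP_cd27db_pr.Main

set_option autoImplicit false

namespace Pool.Agent.Results.MP_cd27db_pr.TwoSidedCLT

open MeasureTheory ProbabilityTheory Filter Topology Pool.MP_cd27db_pr
open scoped NNReal

/-- **CLT under two-sided square root conditions.** Let `(ξ n)_{n ∈ ℤ}` be a stationary ergodic
Markov chain with kernel `κ`, invariant law `π = P.map (ξ 0)` and Markov operator `Q` on `L²(π)`.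
If `f ∈ L²₀(π)` lies in the range of `√(I - Q)` and in the range of `√(I - Q*)`, then
`E(S_n²)/n` converges to some `σ² ≥ 0` and `S_n/√n` converges in distribution to `N(0, σ²)`. -/
theorem result {Ω S : Type*} [MeasurableSpace Ω] [MeasurableSpace S] (P : Measure Ω)
    [IsProbabilityMeasure P] (ξ : ℤ → Ω → S) (κ : Kernel S S) [IsMarkovKernel κ]
    (hξ : IsStationaryMarkovChain P ξ κ)
    (Q : Lp ℝ 2 (P.map (ξ 0)) →L[ℝ] Lp ℝ 2 (P.map (ξ 0)))
    (hQ : IsMarkovOperator κ (P.map (ξ 0)) Q) (herg : IsErgodicOperator Q)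
    (f : S → ℝ) (hf : MemLp f 2 (P.map (ξ 0))) (_hf0 : ∫ x, f x ∂(P.map (ξ 0)) = 0)
    (hrange : ∃ g, sqrtOneSub Q g = hf.toLp f)
    (hrange' : ∃ h, sqrtOneSub (ContinuousLinearMap.adjoint Q) h = hf.toLp f) :
    ∃ σ2 : ℝ≥0,
      Tendsto (fun n : ℕ => (∫ ω, (∑ i ∈ Finset.Icc 1 n, f (ξ (i : ℤ) ω)) ^ 2 ∂P) / n) atTop
        (𝓝 (σ2 : ℝ)) ∧
      TendstoInDistribution
        (fun (n : ℕ) ω => (∑ i ∈ Finset.Icc 1 n, f (ξ (i : ℤ) ω)) / √n) atTop (id : ℝ → ℝ)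
        (fun _ => P) (gaussianReal 0 σ2) :=
  main P ξ κ hξ Q hQ herg f hf hrange hrange'

end Pool.Agent.Results.MP_cd27db_pr.TwoSidedCLT
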